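import Pool.Agent.P.MP_3f5ded_co.ULMain
import Pool.Agent.P.MP_3f5ded_co.U8Main
import Pool.Agent.P.MP_3f5ded_co.B8Fin
import Pool.Agent.P.MP_3f5ded_co.U9Main
import Pool.Agent.P.MP_3f5ded_co.B9Fin
import Pool.Agent.P.MP_3f5ded_co.U10Main
import Pool.Agent.P.MP_3f5ded_co.TenRig
import Pool.Agent.P.MP_3f5ded_co.USMain
import Pool.Agent.P.MP_3f5ded_co.UJFin

set_option autoImplicit false

/-- For every `k ≥ 7`, a real number is the circular chromatic index of a nonempty `k`-regular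
simple graph if and only if it is a rational number in `[k, k + 1]`. -/
theorem Pool.Agent.Results.MP_3f5ded_co.AllSeven.result (k : ℕ) (hk : 7 ≤ k) (x : ℝ) :
    (∃ (n : ℕ) (G : SimpleGraph (Fin n)) (_ : DecidableRel G.Adj), 0 < n ∧
      G.IsRegularOfDegree k ∧
      sInf {r : ℝ | 1 ≤ r ∧ ∃ c : G.edgeSet → ℝ, (∀ e, 0 ≤ c e ∧ c e < r) ∧
        ∀ e f : G.edgeSet, e ≠ f → (∃ v : Fin n, v ∈ e.1 ∧ v ∈ f.1) →
          1 ≤ |c e - c f| ∧ |c e - c f| ≤ r - 1} = x) ↔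
      ∃ q : ℚ, x = q ∧ (k : ℚ) ≤ q ∧ q ≤ k + 1 := by
  rcases (show k = 7 ∨ k = 8 ∨ k = 9 ∨ k = 10 ∨ 11 ≤ k by omega) with rfl | rfl | rfl | rfl | hk
  · refine (Pool.Agent.P.MP_3f5ded_co.UG.main_seven x).trans (exists_congr fun q => ?_)
    norm_num
  · exact Pool.Agent.P.MP_3f5ded_co.UG.B8.iff_eight Pool.Agent.P.MP_3f5ded_co.UG.B8.rigid x
  · refine (Pool.Agent.P.MP_3f5ded_co.UG.B9.iff_nine
      Pool.Agent.P.MP_3f5ded_co.UG.N9.rigid x).trans (exists_congr fun q => ?_)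
    norm_num
  · refine (Pool.Agent.P.MP_3f5ded_co.UG.B10.iff_ten
      Pool.Agent.P.MP_3f5ded_co.UG.B10.rigid x).trans (exists_congr fun q => ?_)
    norm_num
  · rcases Nat.even_or_odd k with h | h
    · exact Pool.Agent.P.MP_3f5ded_co.UG.main_even_all (by obtain ⟨t, ht⟩ := h; omega) h x
    · exact Pool.Agent.P.MP_3f5ded_co.UG.main_odd_all hk h x
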