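import Pool.Agent.P.MP_3f5ded_co.UEMain

set_option autoImplicit false

/-- For `k ≥ 5`, every rational in `[k, k + 1 / 2]` is the circular chromatic index of a
`k`-regular simple graph. -/
theorem Pool.Agent.Results.MP_3f5ded_co.LowerHalf.result (k : ℕ) (hk : 5 ≤ k) (x : ℚ)
    (h1 : (k : ℚ) ≤ x) (h2 : x ≤ k + 1 / 2) :
    ∃ (n : ℕ) (G : SimpleGraph (Fin n)) (_ : DecidableRel G.Adj), G.IsRegularOfDegree k ∧
      sInf {r : ℝ | 1 ≤ r ∧ ∃ c : G.edgeSet → ℝ, (∀ e, 0 ≤ c e ∧ c e < r) ∧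
        ∀ e f : G.edgeSet, e ≠ f → (∃ v : Fin n, v ∈ e.1 ∧ v ∈ f.1) →
          1 ≤ |c e - c f| ∧ |c e - c f| ≤ r - 1} = (x : ℝ) := by
  obtain ⟨n, G, dec, h, hl⟩ := Pool.Agent.P.MP_3f5ded_co.UG.main_lower hk x h1 h2
  exact ⟨n, G, dec, h, hl.csInf_eq⟩
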